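import Pool.Agent.H110R3.Urn.Stmts

namespace Pool.Agent.H110R3.Urn

open MeasureTheory Filter Topology

noncomputable section

/-- non-convergence to interior equilibria -/
def Non : Prop :=
  ∀ (m : ℕ) (G : SimpleGraph (Fin m)) [DecidableRel G.Adj], 0 < m → 0 < NE G →
  ∀ (α : ℝ) (v : Fin m → ℝ), 2 < α → IsEqm G α v → (∀ i, 0 < v i) → NonDeg G α v →
  ∃ ρ : ℝ, 0 < ρ ∧ ∀ (b0 : Fin m → ℕ), (∀ i, 1 ≤ b0 i) →
  ∀ (Ω : Type) [MeasurableSpace Ω] (P : Measure Ω) [IsProbabilityMeasure P]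
    (c : ℕ → Ω → Ch G), IsUrn G α b0 P c →
  ∀ n : ℕ, P {ω | ∀ k ≥ n, ∀ i, |X (st G b0 (fun k => c k ω) k) i - v i| < ρ} = 0

theorem non (hA1 : TaskA1) (hA2 : TaskA2) (hA3 : TaskA3) (hR1 : TaskR1) (hR2 : TaskR2)
    (hR3 : TaskR3) (hN0 : TaskN0) (hN1a : TaskN1a) (hN1b : TaskN1b) (hN1 : TaskN1)
    (hN2a : TaskN2a) (hN2b : TaskN2b) (hN3 : TaskN3) (hM0 : TaskM0) (hM1 : TaskM1) : Non := by
  classical
  intro m G _ hm hN α v hα hv hpos hnd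
  obtain ⟨Q, c, σ, hc, hσ, hQ, h1, h2⟩ := hR2 hR1 m G hm hN α v hα hv hpos hnd
  obtain ⟨ρ, c', σ', hρ, hc', hσ', hrep⟩ := hR3 m G α v hα hpos Q c σ hc hσ hQ h1 h2
  obtain ⟨θ, c2, S0, hθ, hc2, hS0, hn1⟩ :=
    hN1 hA1 hN0 hN1a hN1b hA2 hA3 m G hm hN α v Q ρ c' σ' hρ hc' hσ' hrep
  set U : Set (Fin m → ℕ) := {b | ∀ i, |X b i - v i| < ρ} with hU
  obtain ⟨K, hK, hK2⟩ := hN2a hA1 hA3 m G hm hN α v Q ρ θ c2 S0 hρ hθ hc2 hS0 hn1 U
    (fun b hb => hb)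
  have hN1' : (1:ℝ) ≤ (NE G : ℝ) := by exact_mod_cast hN
  obtain ⟨ε, T0, hε, hT0, hseq⟩ := hN2b c2 (NE G) K hc2 hN1' hK
  have hq : ∀ b : Fin m → ℕ, (∀ i, 1 ≤ b i) → max S0 T0 ≤ tot b →
      ∃ k, qq G α U k b ≤ 1 - ε := by
    intro b hb hT
    obtain ⟨a, d, e, r, hr, ha0, ha, hd, he, hs, hrec⟩ :=
      hK2 b hb (le_trans (le_max_left _ _) hT)
    obtain ⟨k, hk⟩ := hseq (tot b) (le_trans (le_max_right _ _) hT) a d e
      (fun k => qq G α U (k + 1) b) r hr ha0 ha hd he hs hrec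
    exact ⟨k + 1, hk⟩
  have ht := hN3 hA1 hA3 m G hm α U ε (max S0 T0) hε hq
  refine ⟨ρ, hρ, ?_⟩
  intro b0 hb0 Ω _ P _ c hc n
  exact hM1 hA1 hA3 hM0 m G hm hN α U (max S0 T0) ht b0 hb0 Ω P c hc n

/-- structure of the equilibria for large exponent -/
theorem eqs (hE1 : TaskE1) (hE2a : TaskE2a) (hE2b : TaskE2b) (hE2 : TaskE2) (hE3 : TaskE3)
    (hE4 : TaskE4) (m : ℕ) (G : SimpleGraph (Fin m)) [DecidableRel G.Adj] (hN : 0 < NE G) :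
    ∃ α0 : ℝ, ∀ α : ℝ, α0 < α → 2 < α ∧ (∀ x : Fin m → ℝ, IsEqm G α x → NonDeg G α x) ∧
      {x | x ∈ Rg G ∧ ∀ i, fF G α x i = NE G * x i}.Finite := by
  obtain ⟨a1, h1⟩ := hE1 m G hN
  obtain ⟨K, κ, a2, hK, hκ, ha2, h2⟩ := hE2 hE2a hE2b m G hN
  obtain ⟨a3, h3⟩ := hE3 m G hN K κ hK hκ
  refine ⟨max 2 (max a1 (max a2 a3)), ?_⟩
  intro α hα
  have b1 : 2 < α := lt_of_le_of_lt (le_max_left _ _) hα
  have b2 : a1 ≤ α := le_trans (le_trans (le_max_left _ _) (le_max_right _ _)) hα.le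
  have b3 : a2 ≤ α := le_trans (le_trans (le_trans (le_max_left _ _) (le_max_right _ _))
    (le_max_right _ _)) hα.le
  have b4 : a3 ≤ α := le_trans (le_trans (le_trans (le_max_right _ _) (le_max_right _ _))
    (le_max_right _ _)) hα.le
  have e1 := h1 α b2
  have e2 := h2 α b3 e1
  have e3 := h3 α b4 e1 e2
  exact ⟨b1, e3, hE4 m G hN α b1.le e1 e3⟩

/-- a connected graph on at least two vertices has an edge -/
theorem ne_pos (m : ℕ) (hm : 2 ≤ m) (G : SimpleGraph (Fin m)) [DecidableRel G.Adj]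
    (hG : G.Connected) : 0 < NE G := by
  have hnt : Nontrivial (Fin m) := Fin.nontrivial_iff_two_le.mpr hm
  obtain ⟨j, hj⟩ := hG.preconnected.exists_adj_of_nontrivial (⟨0, by omega⟩ : Fin m)
  rw [NE, Fintype.card_pos_iff]
  rcases lt_trichotomy (⟨0, by omega⟩ : Fin m) j with h | h | h
  · exact ⟨⟨(_, j), h, hj⟩⟩
  · exact absurd h hj.ne
  · exact ⟨⟨(j, _), h, hj.symm⟩⟩

theorem main_of (hA1 : TaskA1) (hA2 : TaskA2) (hA3 : TaskA3)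
    (hL2 : TaskL2) (hL1 : TaskL1) (hLip : TaskLip) (hL3 : TaskL3) (hL4 : TaskL4)
    (hM0 : TaskM0) (hM3 : TaskM3) (hConv : TaskConv)
    (hE1 : TaskE1) (hE2a : TaskE2a) (hE2b : TaskE2b) (hE2 : TaskE2) (hE3 : TaskE3)
    (hE4 : TaskE4) (hR1 : TaskR1) (hR2 : TaskR2)
    (hR3 : TaskR3) (hN0 : TaskN0) (hN1a : TaskN1a) (hN1b : TaskN1b) (hN1 : TaskN1)
    (hN2a : TaskN2a) (hN2b : TaskN2b) (hN3 : TaskN3) (hM1 : TaskM1) : Main := by
  classical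
  intro m hm G _ hG
  have hN : 0 < NE G := ne_pos m hm G hG
  have hm0 : 0 < m := by omega
  obtain ⟨α0, h0⟩ := eqs hE1 hE2a hE2b hE2 hE3 hE4 m G hN
  refine ⟨α0, ?_⟩
  intro α hα b0 hb0 Ω _ P _ c hc
  obtain ⟨h2, hnd, hfin⟩ := h0 α hα
  have hconv := hConv hA1 hA3 hL1 hL2 hLip hL3 hL4 hM0 hM3 m G hm0 hN α h2.le hfin b0 hb0 Ω P c hc
  have hnon := non hA1 hA2 hA3 hR1 hR2 hR3 hN0 hN1a hN1b hN1 hN2a hN2b hN3 hM0 hM1
  set Z : Set (Fin m → ℝ) := {x | x ∈ Rg G ∧ ∀ i, fF G α x i = NE G * x i} with hZ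
  -- the null set for each interior equilibrium
  have hnull : ∀ᵐ ω ∂P, ∀ v ∈ Z, (∀ i, 0 < v i) →
      ¬ Tendsto (fun n : ℕ => X (st G b0 (fun k => c k ω) n)) atTop (𝓝 v) := by
    rw [ae_ball_iff hfin.countable]
    intro v hv
    by_cases hpos : ∀ i, 0 < v i
    · obtain ⟨ρ, hρ, hρ2⟩ := hnon m G hm0 hN α v h2 hv hpos (hnd v hv)
      have h3 : ∀ n : ℕ, ∀ᵐ ω ∂P,
          ¬ ∀ k ≥ n, ∀ i, |X (st G b0 (fun k => c k ω) k) i - v i| < ρ := by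
        intro n
        have := hρ2 b0 hb0 Ω P c hc n
        rw [ae_iff]
        simpa using this
      rw [← ae_all_iff] at h3
      filter_upwards [h3] with ω hω _ htend
      have h4 : ∀ᶠ k in atTop, ∀ i, |X (st G b0 (fun k => c k ω) k) i - v i| < ρ := by
        rw [eventually_all]
        intro i
        have h5 := (tendsto_pi_nhds.mp htend i)
        have h6 := (Metric.tendsto_nhds.mp h5) ρ hρ
        filter_upwards [h6] with k hk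
        rwa [Real.dist_eq] at hk
      obtain ⟨n, hn⟩ := eventually_atTop.mp h4
      exact hω n hn
    · exact Eventually.of_forall fun ω h => absurd h hpos
  filter_upwards [hconv, hnull] with ω hω hω2
  obtain ⟨x, hx, htend⟩ := hω
  refine ⟨x, hx.1.1, hx.1.2.1, ?_, ?_⟩
  · by_contra hcon
    push Not at hcon
    exact hω2 x hx (fun i => lt_of_le_of_ne (hx.1.1 i) (Ne.symm (hcon i))) htend
  · refine htend.congr ?_
    intro n
    funext i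
    have := ((hA3 m G hm0).2.2.2.2.2.2 b0 (fun k => c k ω) hb0).1 n
    simp only [X]
    rw [this]
    rfl

end

end Pool.Agent.H110R3.Urn
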