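import Pool.Agent.H110R3.Urn.Stmts

/-! Task E4: finiteness of the set of equilibria. -/

set_option autoImplicit false

namespace Pool.Agent.H110R3.Urn.E4

open Filter Topology Pool.Agent.H110R3.Urn

noncomputable section

variable {m : ℕ}

theorem pp_fderiv (α : ℝ) (x : Fin m → ℝ) (i j : Fin m) (hi : 0 < x i) (hj : 0 < x j) :
    HasFDerivAt (fun y : Fin m → ℝ => pp α (y i) (y j))
      ((α * ww α (x i) (x j)) •
        ((1 / x i) • (ContinuousLinearMap.proj i : (Fin m → ℝ) →L[ℝ] ℝ) -
          (1 / x j) • (ContinuousLinearMap.proj j : (Fin m → ℝ) →L[ℝ] ℝ))) x := by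
  have h1 : HasFDerivAt (fun y : Fin m → ℝ => y i ^ α)
      ((α * x i ^ (α - 1)) • (ContinuousLinearMap.proj i : (Fin m → ℝ) →L[ℝ] ℝ)) x :=
    HasDerivAt.comp_hasFDerivAt (f := fun y : Fin m → ℝ => y i) x
      (Real.hasDerivAt_rpow_const (x := x i) (p := α) (Or.inl hi.ne')) (hasFDerivAt_apply i x)
  have h2 : HasFDerivAt (fun y : Fin m → ℝ => y j ^ α)
      ((α * x j ^ (α - 1)) • (ContinuousLinearMap.proj j : (Fin m → ℝ) →L[ℝ] ℝ)) x :=
    HasDerivAt.comp_hasFDerivAt (f := fun y : Fin m → ℝ => y j) x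
      (Real.hasDerivAt_rpow_const (x := x j) (p := α) (Or.inl hj.ne')) (hasFDerivAt_apply j x)
  have hD : 0 < x i ^ α + x j ^ α := add_pos (Real.rpow_pos_of_pos hi _) (Real.rpow_pos_of_pos hj _)
  have h4 := (hasDerivAt_inv hD.ne').comp_hasFDerivAt x (h1.add h2)
  have h5 := h1.mul h4
  have e : (fun y : Fin m → ℝ => pp α (y i) (y j)) =
      fun y => y i ^ α * (y i ^ α + y j ^ α)⁻¹ := by
    funext y; rw [pp, div_eq_mul_inv]
  rw [e]
  refine HasFDerivAt.congr_fderiv h5 ?_
  have e1 : x i ^ (α - 1) = x i ^ α / x i := Real.rpow_sub_one hi.ne' α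
  have e2 : x j ^ (α - 1) = x j ^ α / x j := Real.rpow_sub_one hj.ne' α
  ext z
  simp only [add_apply, smul_apply,
    sub_apply, ContinuousLinearMap.proj_apply, smul_eq_mul, e1, e2, ww, pp]
  set a := x i ^ α
  set b := x j ^ α
  have hD' : a + b ≠ 0 := hD.ne'
  have hi' := hi.ne'
  have hj' := hj.ne'
  simp only [Function.comp_apply, Pi.add_apply]
  field_simp
  ring

variable (G : SimpleGraph (Fin m)) [DecidableRel G.Adj]

open Classical in
/-- the restricted equation -/
def Hf (α : ℝ) (A : Set (Fin m)) (x : Fin m → ℝ) (i : Fin m) : ℝ :=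
  if i ∈ A then (∑ j, if G.Adj i j then (if j ∈ A then pp α (x i) (x j) else 1) else 0) - NE G * x i
  else x i

open Classical in
def Hd (α : ℝ) (A : Set (Fin m)) (x : Fin m → ℝ) (i : Fin m) : (Fin m → ℝ) →L[ℝ] ℝ :=
  if i ∈ A then (∑ j, if G.Adj i j then (if j ∈ A then
    ((α * ww α (x i) (x j)) •
        ((1 / x i) • (ContinuousLinearMap.proj i : (Fin m → ℝ) →L[ℝ] ℝ) -
          (1 / x j) • (ContinuousLinearMap.proj j : (Fin m → ℝ) →L[ℝ] ℝ))) else 0) else 0) -
      (NE G : ℝ) • (ContinuousLinearMap.proj i : (Fin m → ℝ) →L[ℝ] ℝ)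
  else (ContinuousLinearMap.proj i : (Fin m → ℝ) →L[ℝ] ℝ)

theorem Hf_fderiv (α : ℝ) (A : Set (Fin m)) (x : Fin m → ℝ) (hx : ∀ i ∈ A, 0 < x i) :
    HasFDerivAt (Hf G α A) (ContinuousLinearMap.pi (Hd G α A x)) x := by
  classical
  rw [hasFDerivAt_pi]
  intro i
  unfold Hf Hd
  by_cases hi : i ∈ A
  · simp only [if_pos hi]
    refine HasFDerivAt.sub ?_ ?_
    · refine HasFDerivAt.fun_sum fun j _ => ?_
      by_cases hij : G.Adj i j
      · simp only [if_pos hij]
        by_cases hj : j ∈ A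
        · simp only [if_pos hj]
          exact pp_fderiv α x i j (hx i hi) (hx j hj)
        · simp only [if_neg hj]
          exact hasFDerivAt_const _ _
      · simp only [if_neg hij]
        exact hasFDerivAt_const _ _
    · exact (hasFDerivAt_apply i x).const_mul _
  · simp only [if_neg hi]
    exact hasFDerivAt_apply i x

theorem Hf_eq (α : ℝ) (hα : 2 ≤ α) (A : Set (Fin m)) (x : Fin m → ℝ) (hx : ∀ i ∈ A, 0 < x i)
    (hx' : ∀ i, i ∉ A → x i = 0) (i : Fin m) :
    Hf G α A x i = fF G α x i - NE G * x i := by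
  classical
  unfold Hf fF
  by_cases hi : i ∈ A
  · rw [if_pos hi]
    congr 1
    refine Finset.sum_congr rfl fun j _ => ?_
    by_cases hij : G.Adj i j
    · rw [if_pos hij, if_pos hij]
      by_cases hj : j ∈ A
      · rw [if_pos hj]
      · rw [if_neg hj, hx' j hj, pp, Real.zero_rpow (by linarith), add_zero,
          div_self (Real.rpow_pos_of_pos (hx i hi) _).ne']
    · rw [if_neg hij, if_neg hij]
  · rw [if_neg hi, hx' i hi, mul_zero, sub_zero]
    symm
    refine Finset.sum_eq_zero fun j _ => ?_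
    split_ifs
    · rw [pp, Real.zero_rpow (by linarith), zero_div]
    · rfl

theorem e4_ok : TaskE4 := by
  classical
  intro m G _ hNE α hα hE1 hND
  have hNEr : (0:ℝ) < NE G := by exact_mod_cast hNE
  have hpos : (0:ℝ) < 1 / (8 * (NE G : ℝ)) := by positivity
  -- split along supports
  have hsplit : {x | x ∈ Rg G ∧ ∀ i, fF G α x i = NE G * x i} =
      ⋃ A : Set (Fin m), {x | IsEqm G α x ∧ ∀ i, i ∈ A ↔ x i ≠ 0} := by
    ext x
    simp only [Set.mem_iUnion, Set.mem_ofPred_eq]
    constructor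
    · intro h
      exact ⟨{i | x i ≠ 0}, h, fun i => Iff.rfl⟩
    · rintro ⟨A, h, _⟩
      exact h
  rw [hsplit]
  refine Set.finite_iUnion fun A => ?_
  by_contra hinf
  set S : Set (Fin m → ℝ) := {x | IsEqm G α x ∧ ∀ i, i ∈ A ↔ x i ≠ 0} with hS
  have hinf' : S.Infinite := hinf
  have hK : IsCompact (Set.pi Set.univ (fun _ : Fin m => Set.Icc (0:ℝ) 1)) :=
    isCompact_univ_pi fun _ => isCompact_Icc
  have hSK : S ⊆ Set.pi Set.univ (fun _ : Fin m => Set.Icc (0:ℝ) 1) := by
    intro x hx i _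
    have h0 := hx.1.1.1
    have h1 := hx.1.1.2.1
    refine ⟨h0 i, ?_⟩
    rw [← h1]
    exact Finset.single_le_sum (fun j _ => h0 j) (Finset.mem_univ i)
  obtain ⟨x, _, hacc⟩ := hinf'.exists_accPt_of_subset_isCompact hK hSK
  -- every element of S
  have hSpos : ∀ y ∈ S, ∀ i ∈ A, 1 / (8 * (NE G : ℝ)) ≤ y i := by
    intro y hy i hi
    rcases hE1 y hy.1 i with h | h
    · exact absurd h ((hy.2 i).mp hi)
    · exact h
  have hSzero : ∀ y ∈ S, ∀ i, i ∉ A → y i = 0 := by
    intro y hy i hi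
    by_contra h
    exact hi ((hy.2 i).mpr h)
  have hSH : ∀ y ∈ S, Hf G α A y = 0 := by
    intro y hy
    funext i
    rw [Hf_eq G α hα A y (fun i hi => hpos.trans_le (hSpos y hy i hi)) (hSzero y hy) i,
      hy.1.2 i, sub_self]
    rfl
  have hcl : x ∈ closure S := mem_closure_iff_clusterPt.mpr hacc.clusterPt
  obtain ⟨u, huS, hu⟩ := mem_closure_iff_seq_limit.mp hcl
  have hui : ∀ i, Tendsto (fun n => u n i) atTop (𝓝 (x i)) := fun i => (tendsto_pi_nhds.mp hu) i
  have hxpos' : ∀ i ∈ A, 1 / (8 * (NE G : ℝ)) ≤ x i := fun i hi =>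
    ge_of_tendsto' (hui i) fun n => hSpos _ (huS n) i hi
  have hxpos : ∀ i ∈ A, 0 < x i := fun i hi => hpos.trans_le (hxpos' i hi)
  have hxzero : ∀ i, i ∉ A → x i = 0 := by
    intro i hi
    refine tendsto_nhds_unique (hui i) ?_
    have : (fun n => u n i) = fun _ => 0 := by funext n; exact hSzero _ (huS n) i hi
    rw [this]; exact tendsto_const_nhds
  have hder := Hf_fderiv G α A x hxpos
  have hHx : Hf G α A x = 0 := by
    have h1 : Tendsto (fun n => Hf G α A (u n)) atTop (𝓝 (Hf G α A x)) :=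
      hder.continuousAt.tendsto.comp hu
    have h2 : (fun n => Hf G α A (u n)) = fun _ => 0 := by funext n; exact hSH _ (huS n)
    rw [h2] at h1
    exact (tendsto_nhds_unique h1 tendsto_const_nhds)
  have hxeq : IsEqm G α x := by
    refine ⟨⟨?_, ?_, ?_⟩, ?_⟩
    · intro i; exact ge_of_tendsto' (hui i) fun n => (huS n).1.1.1 i
    · have h1 : Tendsto (fun n => ∑ i, u n i) atTop (𝓝 (∑ i, x i)) :=
        tendsto_finsetSum _ fun i _ => hui i
      have h2 : (fun n => ∑ i, u n i) = fun _ => 1 := by funext n; exact (huS n).1.1.2.1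
      rw [h2] at h1
      exact (tendsto_nhds_unique h1 tendsto_const_nhds)
    · intro i j hij
      exact ge_of_tendsto' ((hui i).add (hui j)) fun n => (huS n).1.1.2.2 i j hij
    · intro i
      have h := congrFun hHx i
      rw [Hf_eq G α hα A x hxpos hxzero i] at h
      have h' : fF G α x i - NE G * x i = 0 := h
      linarith
  -- the derivative is injective
  have hinj : LinearMap.ker (ContinuousLinearMap.pi (Hd G α A x)).toLinearMap = ⊥ := by
    rw [LinearMap.ker_eq_bot']
    intro z hz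
    have hzi : ∀ i, Hd G α A x i z = 0 := fun i => congrFun hz i
    have hz0 : ∀ i, i ∉ A → z i = 0 := by
      intro i hi
      have := hzi i
      unfold Hd at this
      rw [if_neg hi] at this
      exact this
    have hmem : ∀ i, x i ≠ 0 ↔ i ∈ A := by
      intro i
      constructor
      · intro h; by_contra hi; exact h (hxzero i hi)
      · intro hi; exact (hxpos i hi).ne'
    have hy := hND x hxeq (fun i => z i / x i) ?_ ?_
    · funext i
      by_cases hi : i ∈ A
      · have := hy i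
        rw [div_eq_zero_iff] at this
        rcases this with h | h
        · exact h
        · exact absurd h (hxpos i hi).ne'
      · exact hz0 i hi
    · intro i hi
      simp only [hi, div_zero]
    · intro i hi
      have hiA := (hmem i).mp hi
      have h := hzi i
      unfold Hd at h
      rw [if_pos hiA, sub_apply, sum_apply] at h
      have h1 : x i * (z i / x i) = z i := by field_simp
      rw [h1]
      have h2 : (NE G : ℝ) * z i = ((NE G : ℝ) • (ContinuousLinearMap.proj i : (Fin m → ℝ) →L[ℝ] ℝ)) z := rfl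
      rw [h2, ← sub_eq_zero.mp h, Finset.mul_sum]
      refine Finset.sum_congr rfl fun j _ => ?_
      by_cases hij : G.Adj i j
      · by_cases hj : j ∈ A
        · rw [if_pos hij, if_pos hj, if_pos ⟨hij, (hmem j).mpr hj⟩]
          simp only [smul_apply,
            sub_apply, ContinuousLinearMap.proj_apply, smul_eq_mul]
          ring
        · rw [if_pos hij, if_neg hj, if_neg (fun h => hj ((hmem j).mp h.2)), mul_zero]
          rfl
      · rw [if_neg hij, if_neg (fun h => hij h.1), mul_zero]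
        rfl
  obtain ⟨K, _, hKa⟩ := LinearMap.exists_antilipschitzWith _ hinj
  have hne : ∀ᶠ y in 𝓝[≠] x, Hf G α A y ≠ 0 := hder.eventually_ne ⟨K, hKa⟩
  have hfr := accPt_iff_frequently_nhdsNE.mp hacc
  obtain ⟨y, hy1, hy2⟩ := (hfr.and_eventually hne).exists
  exact hy2 (hSH y hy1)

end

end Pool.Agent.H110R3.Urn.E4
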