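import Pool.Agent.H110R3.Urn.Stmts

namespace Pool.Agent.H110R3.Urn

open MeasureTheory Filter Topology

noncomputable section

variable {m : ℕ} (G : SimpleGraph (Fin m)) [DecidableRel G.Adj]

/-- choices read off uniform variables -/
def choice (α : ℝ) (b : Fin m → ℕ) (u : Ed G → unitInterval) : Ch G :=
  fun e => decide ((u e : ℝ) < pp α (b e.1.1) (b e.1.2))

/-- the path of states driven by uniform variables -/
def pathS (α : ℝ) (b0 : Fin m → ℕ) (ω : ℕ × Ed G → unitInterval) : ℕ → Fin m → ℕ
  | 0 => b0
  | n + 1 => stp G (pathS α b0 ω n) (choice G α (pathS α b0 ω n) (fun e => ω (n, e)))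

theorem st_eq_pathS (α : ℝ) (b0 : Fin m → ℕ) (ω : ℕ × Ed G → unitInterval) (n : ℕ) :
    st G b0 (fun k => choice G α (pathS G α b0 ω k) (fun e => ω (k, e))) n =
      pathS G α b0 ω n := by
  induction n with
  | zero => rfl
  | succ n ih => simp only [st, pathS, ih]

theorem st_congr (b0 : Fin m → ℕ) (s s' : ℕ → Ch G) (n : ℕ) (h : ∀ k < n, s k = s' k) :
    st G b0 s n = st G b0 s' n := by
  induction n with
  | zero => rfl
  | succ n ih =>
    simp only [st]
    rw [ih (fun k hk => h k (by omega)), h n (by omega)]

theorem meas_path (α : ℝ) (b0 : Fin m → ℕ) (n : ℕ) :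
    Measurable (fun ω : ℕ × Ed G → unitInterval => pathS G α b0 ω n) ∧
    Measurable (fun ω : ℕ × Ed G → unitInterval =>
      choice G α (pathS G α b0 ω n) (fun e => ω (n, e))) := by
  have key : ∀ n, Measurable (fun ω : ℕ × Ed G → unitInterval => pathS G α b0 ω n) →
      Measurable (fun ω : ℕ × Ed G → unitInterval =>
        choice G α (pathS G α b0 ω n) (fun e => ω (n, e))) := by
    intro n hn
    rw [measurable_pi_iff]
    intro e
    simp only [choice]
    have h1 : Measurable (fun ω : ℕ × Ed G → unitInterval => ((ω (n, e) : unitInterval) : ℝ)) :=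
      measurable_subtype_coe.comp (measurable_pi_apply _)
    have h2 : Measurable (fun ω : ℕ × Ed G → unitInterval =>
        pp α (pathS G α b0 ω n e.1.1) (pathS G α b0 ω n e.1.2)) :=
      (measurable_of_countable (fun b : Fin m → ℕ => pp α (b e.1.1) (b e.1.2))).comp hn
    have h3 := measurableSet_lt h1 h2
    refine measurable_to_countable' ?_
    intro x
    cases x with
    | true =>
      convert h3 using 1
      ext ω
      simp
    | false =>
      convert h3.compl using 1
      ext ω
      simp
  have key2 : ∀ n, Measurable (fun ω : ℕ × Ed G → unitInterval => pathS G α b0 ω n) := by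
    intro n
    induction n with
    | zero => exact measurable_const
    | succ n ih =>
      have h1 := key n ih
      have h2 : Measurable (fun p : (Fin m → ℕ) × Ch G => stp G p.1 p.2) :=
        measurable_of_countable _
      exact h2.comp (ih.prodMk h1)
  exact ⟨key2 n, key n (key2 n)⟩

theorem pp_mem (α a b : ℝ) (ha : 0 < a) (hb : 0 < b) : pp α a b ∈ Set.Icc (0:ℝ) 1 := by
  have h1 := Real.rpow_pos_of_pos ha α
  have h2 := Real.rpow_pos_of_pos hb α
  constructor
  · exact div_nonneg h1.le (by positivity)
  · rw [pp, div_le_one (by positivity)]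
    linarith

theorem one_le_st (b0 : Fin m → ℕ) (hb0 : ∀ i, 1 ≤ b0 i) (s : ℕ → Ch G) (n : ℕ) (i : Fin m) :
    1 ≤ st G b0 s n i := by
  induction n with
  | zero => exact hb0 i
  | succ n ih => simp only [st, stp]; omega

/-- the urn process exists -/
theorem exists_urn (α : ℝ) (b0 : Fin m → ℕ) (hb0 : ∀ i, 1 ≤ b0 i) :
    ∃ (Ω : Type) (_ : MeasurableSpace Ω) (P : Measure Ω) (_ : IsProbabilityMeasure P)
      (c : ℕ → Ω → Ch G), IsUrn G α b0 P c := by
  classical
  refine ⟨ℕ × Ed G → unitInterval, inferInstance,
    Measure.infinitePi (fun _ => (volume : Measure unitInterval)), inferInstance,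
    fun n ω => choice G α (pathS G α b0 ω n) (fun e => ω (n, e)), ?_⟩
  constructor
  · intro n
    exact (meas_path G α b0 n).2
  · intro n s
    set t : ℕ × Ed G → Set unitInterval := fun q =>
      {u | decide ((u : ℝ) < pp α (st G b0 s q.1 q.2.1.1) (st G b0 s q.1 q.2.1.2)) = s q.1 q.2}
      with ht
    have hset : {ω : ℕ × Ed G → unitInterval |
        ∀ k < n, choice G α (pathS G α b0 ω k) (fun e => ω (k, e)) = s k} =
        Set.pi (↑(Finset.range n ×ˢ (Finset.univ : Finset (Ed G)))) t := by
      ext ω
      simp only [Set.mem_ofPred_eq, Set.mem_pi, Finset.mem_coe, Finset.mem_product,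
        Finset.mem_range, Finset.mem_univ, and_true]
      constructor
      · rintro h ⟨k, e⟩ hk
        have h1 : pathS G α b0 ω k = st G b0 s k := by
          rw [← st_eq_pathS]
          exact st_congr G b0 _ _ k (fun j hj => h j (lt_trans hj hk))
        have h2 := congrFun (h k hk) e
        simp only [choice, h1] at h2
        simpa [ht] using h2
      · intro h k hk
        have h1 : ∀ j ≤ k, pathS G α b0 ω j = st G b0 s j := by
          intro j
          induction j with
          | zero => intro _; rfl
          | succ j ih =>
            intro hj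
            have h3 := ih (by omega)
            simp only [pathS, st, h3]
            congr 1
            funext e
            have := h (j, e) (show j < n by omega)
            simpa [ht, choice] using this
        funext e
        have := h (k, e) hk
        simp only [choice, h1 k le_rfl]
        simpa [ht] using this
    have hm : ∀ q, MeasurableSet (t q) := by
      intro q
      have h3 : MeasurableSet {u : unitInterval |
          (u : ℝ) < pp α (st G b0 s q.1 q.2.1.1) (st G b0 s q.1 q.2.1.2)} :=
        measurableSet_lt measurable_subtype_coe measurable_const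
      rcases hs : s q.1 q.2 with _ | _
      · convert h3.compl using 1
        ext u
        simp [ht, hs]
      · convert h3 using 1
        ext u
        simp [ht, hs]
    rw [hset, Measure.infinitePi_pi _ (fun q _ => hm q)]
    rw [Finset.prod_product]
    rw [ENNReal.ofReal_prod_of_nonneg]
    · refine Finset.prod_congr rfl ?_
      intro k _
      rw [w, ENNReal.ofReal_prod_of_nonneg]
      · refine Finset.prod_congr rfl ?_
        intro e _
        have hmem := pp_mem α (st G b0 s k e.1.1) (st G b0 s k e.1.2)
          (by exact_mod_cast one_le_st G b0 hb0 s k _) (by exact_mod_cast one_le_st G b0 hb0 s k _)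
        rcases hs : s k e with _ | _
        · simp only [Bool.false_eq_true, if_false]
          have : t (k, e) = (Set.Iio (⟨_, hmem⟩ : unitInterval))ᶜ := by
            ext u
            simp [ht, hs, ← Subtype.coe_le_coe]
          rw [this]
          simp
        · simp only [if_true]
          have : t (k, e) = Set.Iio (⟨_, hmem⟩ : unitInterval) := by
            ext u
            simp [ht, hs, ← Subtype.coe_lt_coe]
          rw [this]
          simp
      · intro e _
        have hmem := pp_mem α (st G b0 s k e.1.1) (st G b0 s k e.1.2)
          (by exact_mod_cast one_le_st G b0 hb0 s k _) (by exact_mod_cast one_le_st G b0 hb0 s k _)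
        split_ifs
        · exact hmem.1
        · linarith [hmem.2]
    · intro k _
      rw [w]
      refine Finset.prod_nonneg ?_
      intro e _
      have hmem := pp_mem α (st G b0 s k e.1.1) (st G b0 s k e.1.2)
          (by exact_mod_cast one_le_st G b0 hb0 s k _) (by exact_mod_cast one_le_st G b0 hb0 s k _)
      split_ifs
      · exact hmem.1
      · linarith [hmem.2]

end

end Pool.Agent.H110R3.Urn
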