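import Pool.Agent.H110R3.Urn.Stmts

namespace Pool.Agent.H110R3.Urn.L1own

open Finset

variable {m : ℕ}

theorem regroup (G : SimpleGraph (Fin m)) [DecidableRel G.Adj] (φ : Fin m → Fin m → ℝ) :
    ∑ e : Ed G, (φ e.1.1 e.1.2 + φ e.1.2 e.1.1) =
      ∑ i, ∑ j, if G.Adj i j then φ i j else 0 := by
  classical
  have h1 : ∑ i, ∑ j, (if G.Adj i j then φ i j else 0) =
      ∑ i, ∑ j, ((if i < j ∧ G.Adj i j then φ i j else 0) +
        (if j < i ∧ G.Adj j i then φ i j else 0)) := by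
    refine Finset.sum_congr rfl fun i _ => Finset.sum_congr rfl fun j _ => ?_
    rcases lt_trichotomy i j with h | h | h
    · have h2 : ¬ (j < i) := not_lt.mpr h.le
      simp [h, h2]
    · subst h; simp
    · have h2 : ¬ (i < j) := not_lt.mpr h.le
      simp [h, h2, G.adj_comm]
  rw [h1]
  simp only [Finset.sum_add_distrib]
  have h3 : ∑ i, ∑ j, (if j < i ∧ G.Adj j i then φ i j else 0) =
      ∑ i, ∑ j, (if i < j ∧ G.Adj i j then φ j i else 0) := Finset.sum_comm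
  rw [h3]
  have h4 : ∀ ψ : Fin m → Fin m → ℝ, ∑ e : Ed G, ψ e.1.1 e.1.2 =
      ∑ i, ∑ j, if i < j ∧ G.Adj i j then ψ i j else 0 := by
    intro ψ
    rw [← Finset.sum_product' (f := fun i j => if i < j ∧ G.Adj i j then ψ i j else 0)]
    rw [← Finset.sum_filter]
    rw [Finset.sum_subtype (p := fun e : Fin m × Fin m => e.1 < e.2 ∧ G.Adj e.1 e.2)]
    intro x
    simp
  rw [h4 φ, h4 (fun i j => φ j i)]

theorem t : TaskL1 := by
  intro hA1 hA3 hL2 m G _ hm hN α hα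
  have hNR : (0:ℝ) < NE G := by exact_mod_cast hN
  obtain ⟨C2, hC2, hT⟩ := hL2 α (1 / (2 * (NE G : ℝ))) hα (by positivity)
  refine ⟨2 * C2 * (NE G : ℝ) ^ 3, by positivity, ?_⟩
  intro b hb
  obtain ⟨a1, a2, a3, a4, a5, a6, a7⟩ := hA3 m G hm
  obtain ⟨w0, w1, w2⟩ := hA1 m G α b hb.1
  have hx := a6 b hb
  set x := X b with hxdef
  set S : ℝ := tot b + NE G with hS
  have htot : 0 < tot b := by
    have : Nonempty (Fin m) := ⟨⟨0, hm⟩⟩
    refine Finset.sum_pos (fun i _ => ?_) Finset.univ_nonempty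
    exact_mod_cast hb.1 i
  have hSpos : 0 < S := by positivity
  have hx1 : ∀ y ∈ Rg G, ∀ i, y i ∈ Set.Icc (0:ℝ) 1 := by
    intro y hy i
    refine ⟨hy.1 i, ?_⟩
    rw [← hy.2.1]
    exact Finset.single_le_sum (fun j _ => hy.1 j) (Finset.mem_univ i)
  have hxpos : ∀ i, 0 < x i := by
    intro i
    have : (1:ℝ) ≤ b i := by exact_mod_cast hb.1 i
    have : 0 < (b i : ℝ) := by linarith
    exact div_pos this htot
  -- increments
  have hinc : ∀ s i, X (stp G b s) i - x i = ((Y G s i : ℝ) - NE G * x i) / S :=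
    fun s i => a4 b s hb.1 i
  have hsq : ∀ s i, (X (stp G b s) i - x i) ^ 2 ≤ (NE G : ℝ) ^ 2 / S ^ 2 := by
    intro s i
    rw [hinc, div_pow]
    refine div_le_div_of_nonneg_right (sq_le_sq' ?_ ?_) (by positivity)
    · have h1 : (0:ℝ) ≤ Y G s i := by positivity
      have h2 := (hx1 x hx i).2
      nlinarith
    · have h1 : (Y G s i : ℝ) ≤ NE G := by exact_mod_cast a2 s i
      have h2 := (hx1 x hx i).1
      nlinarith
  set dh : Fin m → Fin m → ℝ := fun i j => (x i) ^ (α - 1) / ((x i) ^ α + (x j) ^ α) with hdh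
  have hs : ∀ s, LL G α x + ∑ e : Ed G, (dh e.1.1 e.1.2 * (X (stp G b s) e.1.1 - x e.1.1) +
      dh e.1.2 e.1.1 * (X (stp G b s) e.1.2 - x e.1.2)) - 2 * C2 * (NE G : ℝ) ^ 3 / S ^ 2 ≤
      LL G α (X (stp G b s)) := by
    intro s
    have hx' := a6 _ (a5 b s hb)
    have key : ∀ e : Ed G, hh α (x e.1.1) (x e.1.2) +
        (dh e.1.1 e.1.2 * (X (stp G b s) e.1.1 - x e.1.1) +
          dh e.1.2 e.1.1 * (X (stp G b s) e.1.2 - x e.1.2)) - 2 * C2 * (NE G : ℝ) ^ 2 / S ^ 2 ≤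
        hh α (X (stp G b s) e.1.1) (X (stp G b s) e.1.2) := by
      intro e
      have h := hT (x e.1.1) (x e.1.2) (X (stp G b s) e.1.1) (X (stp G b s) e.1.2)
        (hx1 x hx _) (hx1 x hx _) (hx1 _ hx' _) (hx1 _ hx' _) (hx.2.2 _ _ e.2.2)
        (hx'.2.2 _ _ e.2.2)
      have h1 := hsq s e.1.1
      have h2 := hsq s e.1.2
      have h3 : dh e.1.2 e.1.1 = (x e.1.2) ^ (α - 1) / ((x e.1.1) ^ α + (x e.1.2) ^ α) := by
        simp only [hdh]; rw [add_comm]
      have h4 : C2 * ((X (stp G b s) e.1.1 - x e.1.1) ^ 2 + (X (stp G b s) e.1.2 - x e.1.2) ^ 2)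
          ≤ 2 * C2 * (NE G : ℝ) ^ 2 / S ^ 2 := by
        calc _ ≤ C2 * ((NE G : ℝ) ^ 2 / S ^ 2 + (NE G : ℝ) ^ 2 / S ^ 2) := by gcongr
          _ = _ := by ring
      rw [h3]
      simp only [hdh]
      linarith
    have h5 := Finset.sum_le_sum (fun e (_ : e ∈ (Finset.univ : Finset (Ed G))) => key e)
    rw [Finset.sum_sub_distrib, Finset.sum_add_distrib] at h5
    simp only [Finset.sum_const, Finset.card_univ, nsmul_eq_mul] at h5
    have h6 : (Fintype.card (Ed G) : ℝ) * (2 * C2 * (NE G : ℝ) ^ 2 / S ^ 2) =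
        2 * C2 * (NE G : ℝ) ^ 3 / S ^ 2 := by
      rw [show (Fintype.card (Ed G) : ℝ) = NE G from rfl]; ring
    rw [h6] at h5
    exact h5
  -- means
  have hmean : ∀ i, ∑ s, w G α b s * (X (stp G b s) i - x i) = GG G α x i / S := by
    intro i
    simp_rw [hinc]
    have : ∀ s, w G α b s * (((Y G s i : ℝ) - NE G * x i) / S) =
        (w G α b s * (Y G s i : ℝ)) / S - w G α b s * (NE G * x i / S) := by
      intro s; ring
    simp_rw [this]
    rw [Finset.sum_sub_distrib, ← Finset.sum_div, ← Finset.sum_mul, w1, w2 i, GG]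
    ring
  have hPP : LL G α x + ∑ e : Ed G, (dh e.1.1 e.1.2 * (GG G α x e.1.1 / S) +
      dh e.1.2 e.1.1 * (GG G α x e.1.2 / S)) - 2 * C2 * (NE G : ℝ) ^ 3 / S ^ 2 ≤
      PP G α (fun b' => LL G α (X b')) b := by
    have h7 : ∑ s, w G α b s * (LL G α x + ∑ e : Ed G,
        (dh e.1.1 e.1.2 * (X (stp G b s) e.1.1 - x e.1.1) +
        dh e.1.2 e.1.1 * (X (stp G b s) e.1.2 - x e.1.2)) - 2 * C2 * (NE G : ℝ) ^ 3 / S ^ 2) ≤
        PP G α (fun b' => LL G α (X b')) b :=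
      Finset.sum_le_sum fun s _ => mul_le_mul_of_nonneg_left (hs s) (w0 s)
    refine le_trans (le_of_eq ?_) h7
    have : ∀ s, w G α b s * (LL G α x + ∑ e : Ed G,
        (dh e.1.1 e.1.2 * (X (stp G b s) e.1.1 - x e.1.1) +
        dh e.1.2 e.1.1 * (X (stp G b s) e.1.2 - x e.1.2)) - 2 * C2 * (NE G : ℝ) ^ 3 / S ^ 2) =
        w G α b s * (LL G α x - 2 * C2 * (NE G : ℝ) ^ 3 / S ^ 2) + ∑ e : Ed G,
        (dh e.1.1 e.1.2 * (w G α b s * (X (stp G b s) e.1.1 - x e.1.1)) +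
        dh e.1.2 e.1.1 * (w G α b s * (X (stp G b s) e.1.2 - x e.1.2))) := by
      intro s
      rw [show ∀ A B C D : ℝ, A * (B + C - D) = A * (B - D) + A * C by intros; ring]
      rw [Finset.mul_sum]
      congr 1
      refine Finset.sum_congr rfl fun e _ => ?_
      ring
    simp_rw [this]
    have h8 : ∀ e : Ed G, ∑ s, (dh e.1.1 e.1.2 * (w G α b s * (X (stp G b s) e.1.1 - x e.1.1)) +
        dh e.1.2 e.1.1 * (w G α b s * (X (stp G b s) e.1.2 - x e.1.2))) =
        dh e.1.1 e.1.2 * (GG G α x e.1.1 / S) + dh e.1.2 e.1.1 * (GG G α x e.1.2 / S) := by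
      intro e
      rw [Finset.sum_add_distrib, ← Finset.mul_sum, ← Finset.mul_sum, hmean, hmean]
    have h10 : ∑ s, (w G α b s * (LL G α x - 2 * C2 * (NE G : ℝ) ^ 3 / S ^ 2) + ∑ e : Ed G,
        (dh e.1.1 e.1.2 * (w G α b s * (X (stp G b s) e.1.1 - x e.1.1)) +
        dh e.1.2 e.1.1 * (w G α b s * (X (stp G b s) e.1.2 - x e.1.2)))) =
        (LL G α x - 2 * C2 * (NE G : ℝ) ^ 3 / S ^ 2) + ∑ e : Ed G,
        (dh e.1.1 e.1.2 * (GG G α x e.1.1 / S) + dh e.1.2 e.1.1 * (GG G α x e.1.2 / S)) := by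
      rw [Finset.sum_add_distrib, ← Finset.sum_mul, w1, Finset.sum_comm, one_mul]
      rw [Finset.sum_congr rfl fun e _ => h8 e]
    rw [h10]
    ring
  refine le_trans (le_of_eq ?_) hPP
  have hreg := regroup G (fun i j => dh i j * (GG G α x i / S))
  rw [hreg]
  have hell : ∀ i, ∑ j, (if G.Adj i j then dh i j * (GG G α x i / S) else 0) =
      ell G α x i * (GG G α x i / S) := by
    intro i
    rw [ell, Finset.sum_mul]
    refine Finset.sum_congr rfl fun j _ => ?_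
    split_ifs <;> simp [hdh]
  have hf : ∀ i, fF G α x i = x i * ell G α x i := by
    intro i
    rw [fF, ell, Finset.mul_sum]
    refine Finset.sum_congr rfl fun j _ => ?_
    split_ifs
    · rw [pp, ← mul_div_assoc]
      congr 1
      rw [Real.rpow_sub_one (hxpos i).ne']
      field_simp [(hxpos i).ne']
    · simp
  have hsumf : ∑ i, fF G α x i = NE G := by
    simp_rw [← w2]
    rw [Finset.sum_comm]
    simp_rw [← Finset.mul_sum]
    have : ∀ s, ∑ i, (Y G s i : ℝ) = NE G := by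
      intro s
      exact_mod_cast a1 s
    simp_rw [this]
    rw [← Finset.sum_mul, w1, one_mul]
  have hgg : gg G α x / S = ∑ i, ell G α x i * (GG G α x i / S) := by
    have h9 : ∀ i, ell G α x i * (GG G α x i / S) =
        (x i * (ell G α x i - NE G) ^ 2 + NE G * (fF G α x i - NE G * x i)) / S := by
      intro i
      rw [GG, hf]; ring
    simp_rw [h9]
    rw [← Finset.sum_div, Finset.sum_add_distrib, ← Finset.mul_sum, Finset.sum_sub_distrib,
      ← Finset.mul_sum, hsumf, hx.2.1]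
    rw [gg]; ring
  rw [Finset.sum_congr rfl fun i _ => hell i, ← hgg]

end Pool.Agent.H110R3.Urn.L1own
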