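import Pool.Agent.H110R3.Urn.Stmts

/-!
Task M3 of the urn project: summability of the drift term along the process.
-/

namespace Pool.Agent.H110R3.Urn

open MeasureTheory Filter Topology

namespace TM3

theorem ae_summable {Ω : Type} [MeasurableSpace Ω] (P : Measure Ω) (a : ℕ → Ω → ℝ)
    (ha : ∀ n ω, 0 ≤ a n ω) (hint : ∀ n, Integrable (a n) P) (B : ℝ)
    (hB : ∀ K : ℕ, ∑ n ∈ Finset.range K, ∫ ω, a n ω ∂P ≤ B) :
    ∀ᵐ ω ∂P, Summable fun n => a n ω := by
  have h1 : ∑' n, ∫⁻ ω, ENNReal.ofReal (a n ω) ∂P ≤ ENNReal.ofReal B := by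
    refine ENNReal.tsum_le_of_sum_range_le ?_
    intro K
    have : ∀ n, ∫⁻ ω, ENNReal.ofReal (a n ω) ∂P = ENNReal.ofReal (∫ ω, a n ω ∂P) := by
      intro n
      rw [ofReal_integral_eq_lintegral_ofReal (hint n) (Filter.Eventually.of_forall (ha n))]
    rw [Finset.sum_congr rfl (fun n _ => this n),
      ← ENNReal.ofReal_sum_of_nonneg (fun n _ => integral_nonneg (ha n))]
    exact ENNReal.ofReal_le_ofReal (hB K)
  have h2 : ∫⁻ ω, ∑' n, ENNReal.ofReal (a n ω) ∂P ≠ ⊤ := by
    rw [lintegral_tsum (fun n => (hint n).aemeasurable.ennreal_ofReal)]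
    exact (lt_of_le_of_lt h1 ENNReal.ofReal_lt_top).ne
  have h3 := ae_lt_top' (AEMeasurable.ennreal_tsum
    (fun n => (hint n).aemeasurable.ennreal_ofReal)) h2
  filter_upwards [h3] with ω hω
  have h4 : Summable fun n => ((Real.toNNReal (a n ω) : NNReal) : ℝ) :=
    ENNReal.tsum_coe_ne_top_iff_summable_coe.1 hω.ne
  refine h4.congr ?_
  intro n
  exact Real.coe_toNNReal _ (ha n ω)

theorem st_congr {m : ℕ} (G : SimpleGraph (Fin m)) [DecidableRel G.Adj] (b0 : Fin m → ℕ) :
    ∀ (n : ℕ) (s s' : ℕ → Ch G), (∀ k < n, s k = s' k) → st G b0 s n = st G b0 s' n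
  | 0, _, _, _ => rfl
  | n + 1, s, s', h => by
      have := st_congr G b0 n s s' (fun k hk => h k (by omega))
      simp only [st, this, h n (by omega)]

end TM3

open TM3 in
theorem taskM3 : TaskM3 := by
  intro hA3 hM0 hA1 m G _ hm hN α L g C hC hL hg hstep b0 hb0 Ω _ P _ c hc
  obtain ⟨-, -, -, -, -, hReg, hst⟩ := hA3 m G hm
  have hstt := fun ω => hst b0 (fun k => c k ω) hb0
  have hM := hM0 hA1 m G α b0 hb0 Ω P c hc
  set T := tot b0 with hT
  have hT0 : 0 ≤ T := by
    rw [hT]; exact Finset.sum_nonneg (fun i _ => Nat.cast_nonneg _)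
  have hN1 : (1 : ℝ) ≤ (NE G : ℝ) := by exact_mod_cast hN
  -- integrability
  have hI : ∀ (n : ℕ) (f : (Fin m → ℕ) → ℝ),
      Integrable (fun ω => f (st G b0 (fun k => c k ω) n)) P := by
    intro n f
    exact (hM n (fun s => f (st G b0 s n))
      (fun s s' h => by rw [st_congr G b0 n s s' h])).1
  have hMark : ∀ (n : ℕ) (F : (Fin m → ℕ) → ℝ),
      ∫ ω, F (st G b0 (fun k => c k ω) (n + 1)) ∂P =
      ∫ ω, PP G α F (st G b0 (fun k => c k ω) n) ∂P := by
    intro n F
    have := (hM n (fun _ => 1) (fun _ _ _ => rfl)).2 F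
    simpa using this
  set a : ℕ → Ω → ℝ := fun n ω =>
    (if T ≤ n then g (X (st G b0 (fun k => c k ω) n)) else 0) / (T + (n + 1) * NE G) with ha_def
  have hden : ∀ n : ℕ, (0 : ℝ) < T + (n + 1) * NE G := by
    intro n
    have : (0 : ℝ) < ((n : ℝ) + 1) * NE G := by positivity
    linarith
  have hden2 : ∀ n : ℕ, ((n : ℝ) + 1) ≤ T + (n + 1) * NE G := by
    intro n
    have : ((n : ℝ) + 1) * 1 ≤ ((n : ℝ) + 1) * NE G :=
      mul_le_mul_of_nonneg_left hN1 (by positivity)
    linarith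
  have ha0 : ∀ n ω, 0 ≤ a n ω := by
    intro n ω
    simp only [ha_def]
    refine div_nonneg ?_ (hden n).le
    split_ifs with h
    · exact hg _ (hReg _ ((hstt ω).2.2 n h))
    · exact le_rfl
  have haI : ∀ n, Integrable (a n) P := by
    intro n
    exact hI n (fun b => (if T ≤ n then g (X b) else 0) / (T + (n + 1) * NE G))
  set u : ℕ → ℝ := fun n => ∫ ω, L (X (st G b0 (fun k => c k ω) n)) ∂P with hu_def
  have hstep2 : ∀ n : ℕ, T ≤ n → ∫ ω, a n ω ∂P ≤ u (n + 1) - u n + C / ((n : ℝ) + 1) ^ 2 := by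
    intro n hn
    have e1 : u (n + 1) = ∫ ω, PP G α (fun b' => L (X b')) (st G b0 (fun k => c k ω) n) ∂P :=
      hMark n (fun b' => L (X b'))
    rw [e1]
    have e2 : ∫ ω, (L (X (st G b0 (fun k => c k ω) n)) + a n ω - C / ((n : ℝ) + 1) ^ 2) ∂P ≤
        ∫ ω, PP G α (fun b' => L (X b')) (st G b0 (fun k => c k ω) n) ∂P := by
      refine integral_mono (((hI n (fun b => L (X b))).add (haI n)).sub (integrable_const _))
        (hI n _) ?_
      intro ω
      have h1 := (hstt ω).2.2 n hn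
      have h2 := hstep _ h1
      have h3 : tot (st G b0 (fun k => c k ω) n) + NE G = T + (n + 1) * NE G := by
        rw [(hstt ω).1 n]; ring
      rw [h3] at h2
      refine le_trans ?_ h2
      have h4 : a n ω = g (X (st G b0 (fun k => c k ω) n)) / (T + (n + 1) * NE G) := by
        simp only [ha_def, if_pos hn]
      have h5 : C / (T + (n + 1) * NE G) ^ 2 ≤ C / ((n : ℝ) + 1) ^ 2 := by
        refine div_le_div_of_nonneg_left hC.le (by positivity) ?_
        exact pow_le_pow_left₀ (by positivity) (hden2 n) 2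
      show L (X (st G b0 (fun k => c k ω) n)) + a n ω - C / ((n : ℝ) + 1) ^ 2 ≤ _
      rw [h4]
      linarith
    have e3 : ∫ ω, (L (X (st G b0 (fun k => c k ω) n)) + a n ω - C / ((n : ℝ) + 1) ^ 2) ∂P =
        u n + ∫ ω, a n ω ∂P - C / ((n : ℝ) + 1) ^ 2 := by
      have i1 := hI n (fun b => L (X b))
      rw [integral_sub (f := fun ω => L (X (st G b0 (fun k => c k ω) n)) + a n ω)
        (i1.add (haI n)) (integrable_const _), integral_add i1 (haI n)]
      simp [hu_def]
    linarith [e2, e3]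
  have hzero : ∀ n : ℕ, ¬ T ≤ n → ∫ ω, a n ω ∂P = 0 := by
    intro n hn
    have : a n = fun _ => 0 := by
      funext ω
      simp only [ha_def, if_neg hn, zero_div]
    rw [this]; simp
  have hub : ∀ n : ℕ, T ≤ n → |u n| ≤ C := by
    intro n hn
    have h1 : ∀ ω, ‖L (X (st G b0 (fun k => c k ω) n))‖ ≤ C := by
      intro ω
      exact hL _ (hReg _ ((hstt ω).2.2 n hn))
    have h2 := norm_integral_le_of_norm_le_const (μ := P) (Filter.Eventually.of_forall h1)
    simpa using h2
  -- the bound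
  set n0 := Nat.ceil T with hn0
  have hsumC : Summable fun n : ℕ => C / ((n : ℝ) + 1) ^ 2 := by
    have h1 : Summable fun n : ℕ => 1 / ((n : ℝ)) ^ 2 :=
      Real.summable_one_div_nat_pow.2 (by norm_num)
    have h2 := (summable_nat_add_iff 1).2 h1
    refine (h2.mul_left C).congr ?_
    intro n
    push_cast
    ring
  set D := ∑' n : ℕ, C / ((n : ℝ) + 1) ^ 2 with hD
  have hbound : ∀ j : ℕ, ∑ n ∈ Finset.range (n0 + j), ∫ ω, a n ω ∂P ≤
      u (n0 + j) - u n0 + ∑ n ∈ Finset.range (n0 + j), C / ((n : ℝ) + 1) ^ 2 := by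
    intro j
    induction j with
    | zero =>
      have : ∑ n ∈ Finset.range (n0 + 0), ∫ ω, a n ω ∂P = 0 := by
        refine Finset.sum_eq_zero ?_
        intro n hn
        rw [Finset.mem_range, Nat.add_zero] at hn
        refine hzero n ?_
        intro h
        exact absurd (Nat.ceil_le.2 h) (by omega)
      rw [this]
      simp only [Nat.add_zero, sub_self, zero_add]
      exact Finset.sum_nonneg (fun n _ => by positivity)
    | succ j ih =>
      rw [← Nat.add_assoc, Finset.sum_range_succ, Finset.sum_range_succ]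
      have h1 : T ≤ ((n0 + j : ℕ) : ℝ) := by
        refine le_trans (Nat.le_ceil T) ?_
        exact_mod_cast (by omega : n0 ≤ n0 + j)
      have := hstep2 (n0 + j) h1
      linarith
  have hfin : ∀ K : ℕ, ∑ n ∈ Finset.range K, ∫ ω, a n ω ∂P ≤ 2 * C + D := by
    intro K
    have h0 : ∑ n ∈ Finset.range K, ∫ ω, a n ω ∂P ≤
        ∑ n ∈ Finset.range (n0 + K), ∫ ω, a n ω ∂P := by
      refine Finset.sum_le_sum_of_subset_of_nonneg ?_ ?_
      · intro x hx
        rw [Finset.mem_range] at hx ⊢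
        omega
      · intro n _ _
        exact integral_nonneg (ha0 n)
    have h1 := hbound K
    have h2 : ∑ n ∈ Finset.range (n0 + K), C / ((n : ℝ) + 1) ^ 2 ≤ D :=
      hsumC.sum_le_tsum _ (fun n _ => by positivity)
    have h3 : T ≤ ((n0 + K : ℕ) : ℝ) := by
      refine le_trans (Nat.le_ceil T) ?_
      exact_mod_cast (by omega : n0 ≤ n0 + K)
    have h4 := hub (n0 + K) h3
    have h5 := hub n0 (Nat.le_ceil T)
    have h6 := abs_le.1 h4
    have h7 := abs_le.1 h5
    linarith [h6.1, h6.2, h7.1, h7.2]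
  exact ae_summable P a ha0 haI (2 * C + D) hfin

end Pool.Agent.H110R3.Urn
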