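import Mathlib

/-!
# Graph-based Polya urn with large exponent (MP_cd93fa_pr): definitions and tasks

Every task is a `def TaskX : Prop`.  The assembly is in `Pool.Agent.H110R3.Urn.Assembly`.
-/

namespace Pool.Agent.H110R3.Urn

open MeasureTheory Filter Topology

noncomputable section

variable {m : ℕ}

/-- the edges of `G`, each listed once, as an ordered pair with increasing entries -/
abbrev Ed (G : SimpleGraph (Fin m)) : Type :=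
  {e : Fin m × Fin m // e.1 < e.2 ∧ G.Adj e.1 e.2}

/-- the choices made by all the edges at one step: `true` means that the ball of the edge goes
to its first endpoint, `false` that it goes to its second endpoint -/
abbrev Ch (G : SimpleGraph (Fin m)) : Type := Ed G → Bool

/-- `a ^ α / (a ^ α + b ^ α)` -/
def pp (α a b : ℝ) : ℝ := a ^ α / (a ^ α + b ^ α)

variable (G : SimpleGraph (Fin m)) [DecidableRel G.Adj]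

/-- number of edges -/
def NE : ℕ := Fintype.card (Ed G)

/-- number of balls received by the vertex `i` when the choices are `s` -/
def Y (s : Ch G) (i : Fin m) : ℕ :=
  (Finset.univ.filter fun e : Ed G =>
    (s e = true ∧ e.1.1 = i) ∨ (s e = false ∧ e.1.2 = i)).card

/-- probability of the choices `s` in the state `b` (independent edges) -/
def w (α : ℝ) (b : Fin m → ℕ) (s : Ch G) : ℝ :=
  ∏ e : Ed G, if s e = true then pp α (b e.1.1) (b e.1.2) else 1 - pp α (b e.1.1) (b e.1.2)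

/-- the state after one step -/
def stp (b : Fin m → ℕ) (s : Ch G) : Fin m → ℕ := fun i => b i + Y G s i

/-- the state at time `n` started at `b0` when the choices are `s 0, s 1, …` -/
def st (b0 : Fin m → ℕ) (s : ℕ → Ch G) : ℕ → Fin m → ℕ
  | 0 => b0
  | n + 1 => stp G (st b0 s n) (s n)

/-- `c n ω` are the choices of the edges at step `n + 1`: the law of the urn process -/
structure IsUrn (α : ℝ) (b0 : Fin m → ℕ) {Ω : Type} [MeasurableSpace Ω] (P : Measure Ω)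
    (c : ℕ → Ω → Ch G) : Prop where
  meas : ∀ n, Measurable (c n)
  law : ∀ (n : ℕ) (s : ℕ → Ch G), P {ω | ∀ k < n, c k ω = s k} =
    ENNReal.ofReal (∏ k ∈ Finset.range n, w G α (st G b0 s k) (s k))

/-- total number of balls -/
def tot (b : Fin m → ℕ) : ℝ := ∑ i, (b i : ℝ)

/-- proportions -/
def X (b : Fin m → ℕ) (i : Fin m) : ℝ := (b i : ℝ) / tot b

/-- mean number of balls received by `i` -/
def fF (α : ℝ) (x : Fin m → ℝ) (i : Fin m) : ℝ :=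
  ∑ j, if G.Adj i j then pp α (x i) (x j) else 0

/-- drift -/
def GG (α : ℝ) (x : Fin m → ℝ) (i : Fin m) : ℝ := fF G α x i - NE G * x i

def ell (α : ℝ) (x : Fin m → ℝ) (i : Fin m) : ℝ :=
  ∑ j, if G.Adj i j then (x i) ^ (α - 1) / ((x i) ^ α + (x j) ^ α) else 0

def gg (α : ℝ) (x : Fin m → ℝ) : ℝ := ∑ i, x i * (ell G α x i - NE G) ^ 2

def hh (α a b : ℝ) : ℝ := (1 / α) * Real.log (a ^ α + b ^ α)

def LL (α : ℝ) (x : Fin m → ℝ) : ℝ := ∑ e : Ed G, hh α (x e.1.1) (x e.1.2)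

/-- the region of the simplex entered by the process -/
def Rg : Set (Fin m → ℝ) :=
  {x | (∀ i, 0 ≤ x i) ∧ ∑ i, x i = 1 ∧ ∀ i j, G.Adj i j → 1 / (2 * (NE G : ℝ)) ≤ x i + x j}

def InR (b : Fin m → ℕ) : Prop :=
  (∀ i, 1 ≤ b i) ∧ ∀ i j, G.Adj i j → tot b ≤ 2 * (NE G : ℝ) * ((b i : ℝ) + (b j : ℝ))

/-- one step expectation -/
def PP (α : ℝ) (F : (Fin m → ℕ) → ℝ) (b : Fin m → ℕ) : ℝ :=
  ∑ s : Ch G, w G α b s * F (stp G b s)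

/-! ## The main theorem -/

def Main : Prop :=
  ∀ (m : ℕ), 2 ≤ m → ∀ (G : SimpleGraph (Fin m)) [DecidableRel G.Adj], G.Connected →
  ∃ α0 : ℝ, ∀ α : ℝ, α0 < α → ∀ b0 : Fin m → ℕ, (∀ i, 1 ≤ b0 i) →
  ∀ (Ω : Type) [MeasurableSpace Ω] (P : Measure Ω) [IsProbabilityMeasure P]
    (c : ℕ → Ω → Ch G), IsUrn G α b0 P c →
  ∀ᵐ ω ∂P, ∃ x : Fin m → ℝ, (∀ i, 0 ≤ x i) ∧ ∑ i, x i = 1 ∧ (∃ i, x i = 0) ∧
    Tendsto (fun n : ℕ => fun i => (st G b0 (fun k => c k ω) n i : ℝ) /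
      ((∑ j, (b0 j : ℝ)) + n * NE G)) atTop (𝓝 x)

/-! ## A. Elementary facts on one step -/

/-- the weights are probability weights with mean `fF` -/
def TaskA1 : Prop :=
  ∀ (m : ℕ) (G : SimpleGraph (Fin m)) [DecidableRel G.Adj] (α : ℝ) (b : Fin m → ℕ),
  (∀ i, 1 ≤ b i) → (∀ s, 0 ≤ w G α b s) ∧ ∑ s, w G α b s = 1 ∧
  (∀ i, ∑ s, w G α b s * (Y G s i : ℝ) = fF G α (X b) i)

/-- second moments: independence of the edges -/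
def TaskA2 : Prop :=
  ∀ (m : ℕ) (G : SimpleGraph (Fin m)) [DecidableRel G.Adj] (α : ℝ) (b : Fin m → ℕ),
  (∀ i, 1 ≤ b i) → ∀ Q : Fin m → Fin m → ℝ, (∀ i j, Q i j = Q j i) →
  ∑ s, w G α b s * (∑ i, ∑ j, Q i j * ((Y G s i : ℝ) - fF G α (X b) i) *
      ((Y G s j : ℝ) - fF G α (X b) j)) =
  ∑ e : Ed G, pp α (X b e.1.1) (X b e.1.2) * (1 - pp α (X b e.1.1) (X b e.1.2)) *
    (Q e.1.1 e.1.1 - 2 * Q e.1.1 e.1.2 + Q e.1.2 e.1.2)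

/-- deterministic facts on one step and on the region -/
def TaskA3 : Prop :=
  ∀ (m : ℕ) (G : SimpleGraph (Fin m)) [DecidableRel G.Adj], 0 < m →
  (∀ (s : Ch G), ∑ i, Y G s i = NE G) ∧
  (∀ (s : Ch G) i, Y G s i ≤ NE G) ∧
  (∀ (b : Fin m → ℕ) (s : Ch G), tot (stp G b s) = tot b + NE G) ∧
  (∀ (b : Fin m → ℕ) (s : Ch G), (∀ i, 1 ≤ b i) → ∀ i, X (stp G b s) i - X b i =
    ((Y G s i : ℝ) - NE G * X b i) / (tot b + NE G)) ∧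
  (∀ (b : Fin m → ℕ) (s : Ch G), InR G b → InR G (stp G b s)) ∧
  (∀ (b : Fin m → ℕ), InR G b → X b ∈ Rg G) ∧
  (∀ (b0 : Fin m → ℕ) (s : ℕ → Ch G), (∀ i, 1 ≤ b0 i) →
    (∀ n, tot (st G b0 s n) = tot b0 + n * NE G) ∧ (∀ n i, 1 ≤ st G b0 s n i) ∧
    (∀ n : ℕ, tot b0 ≤ n → InR G (st G b0 s n)))

/-! ## L. The Lyapunov function -/

/-- second order lower bound for one edge -/
def TaskL2 : Prop :=
  ∀ (α κ : ℝ), 2 ≤ α → 0 < κ → ∃ C : ℝ, 0 < C ∧ ∀ a b a' b' : ℝ,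
  a ∈ Set.Icc (0:ℝ) 1 → b ∈ Set.Icc (0:ℝ) 1 → a' ∈ Set.Icc (0:ℝ) 1 → b' ∈ Set.Icc (0:ℝ) 1 →
  κ ≤ a + b → κ ≤ a' + b' →
  hh α a b + a ^ (α - 1) / (a ^ α + b ^ α) * (a' - a) + b ^ (α - 1) / (a ^ α + b ^ α) * (b' - b)
    - C * ((a' - a) ^ 2 + (b' - b) ^ 2) ≤ hh α a' b'

/-- one step inequality for the Lyapunov function -/
def TaskL1 : Prop := TaskA1 → TaskA3 → TaskL2 →
  ∀ (m : ℕ) (G : SimpleGraph (Fin m)) [DecidableRel G.Adj], 0 < m → 0 < NE G →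
  ∀ α : ℝ, 2 ≤ α → ∃ C : ℝ, 0 < C ∧ ∀ b : Fin m → ℕ, InR G b →
  LL G α (X b) + gg G α (X b) / (tot b + NE G) - C / (tot b + NE G) ^ 2 ≤
    PP G α (fun b' => LL G α (X b')) b

/-- `LL` is bounded, `gg` is nonnegative, Lipschitz and continuous on the region, and its zeros
are equilibria; the region is compact -/
def TaskLip : Prop :=
  ∀ (m : ℕ) (G : SimpleGraph (Fin m)) [DecidableRel G.Adj], 0 < m → 0 < NE G →
  ∀ α : ℝ, 2 ≤ α → ∃ C : ℝ, 0 < C ∧ (∀ x ∈ Rg G, |LL G α x| ≤ C) ∧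
  (∀ x ∈ Rg G, 0 ≤ gg G α x) ∧
  (∀ x ∈ Rg G, ∀ x' ∈ Rg G, |gg G α x - gg G α x'| ≤ C * ∑ i, |x i - x' i|) ∧
  (∀ x ∈ Rg G, gg G α x = 0 → ∀ i, fF G α x i = NE G * x i) ∧
  IsCompact (Rg G)

/-- deterministic lemma -/
def TaskL3 : Prop :=
  ∀ (g : ℕ → ℝ) (S N C : ℝ), 0 < S → 0 < N → 0 < C → (∀ n, 0 ≤ g n) →
  (Summable fun n : ℕ => g n / (S + n * N)) →
  (∀ n : ℕ, |g (n + 1) - g n| ≤ C / (S + n * N)) → Tendsto g atTop (𝓝 0)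

/-- topological lemma: small steps, limit points in a finite set -/
def TaskL4 : Prop :=
  ∀ (m : ℕ) (K : Set (Fin m → ℝ)) (g : (Fin m → ℝ) → ℝ) (x : ℕ → Fin m → ℝ),
  IsCompact K → ContinuousOn g K → {y ∈ K | g y = 0}.Finite →
  (∀ᶠ n in atTop, x n ∈ K) → Tendsto (fun n => g (x n)) atTop (𝓝 0) →
  (∀ i, Tendsto (fun n => x (n + 1) i - x n i) atTop (𝓝 0)) →
  ∃ y ∈ K, g y = 0 ∧ Tendsto x atTop (𝓝 y)

/-! ## M. Law of the process -/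

/-- Markov property -/
def TaskM0 : Prop := TaskA1 →
  ∀ (m : ℕ) (G : SimpleGraph (Fin m)) [DecidableRel G.Adj] (α : ℝ) (b0 : Fin m → ℕ),
  (∀ i, 1 ≤ b0 i) →
  ∀ (Ω : Type) [MeasurableSpace Ω] (P : Measure Ω) [IsProbabilityMeasure P]
    (c : ℕ → Ω → Ch G), IsUrn G α b0 P c →
  ∀ (n : ℕ) (Ψ : (ℕ → Ch G) → ℝ), (∀ s s' : ℕ → Ch G, (∀ k < n, s k = s' k) → Ψ s = Ψ s') →
  Integrable (fun ω => Ψ (fun k => c k ω)) P ∧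
  ∀ F : (Fin m → ℕ) → ℝ,
  ∫ ω, Ψ (fun k => c k ω) * F (st G b0 (fun k => c k ω) (n + 1)) ∂P =
  ∫ ω, Ψ (fun k => c k ω) * PP G α F (st G b0 (fun k => c k ω) n) ∂P

/-- summability of the drift term along the process -/
def TaskM3 : Prop := TaskA3 → TaskM0 → TaskA1 →
  ∀ (m : ℕ) (G : SimpleGraph (Fin m)) [DecidableRel G.Adj], 0 < m → 0 < NE G →
  ∀ (α : ℝ) (L g : (Fin m → ℝ) → ℝ) (C : ℝ), 0 < C → (∀ x ∈ Rg G, |L x| ≤ C) →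
  (∀ x ∈ Rg G, 0 ≤ g x) →
  (∀ b : Fin m → ℕ, InR G b →
    L (X b) + g (X b) / (tot b + NE G) - C / (tot b + NE G) ^ 2 ≤
      PP G α (fun b' => L (X b')) b) →
  ∀ (b0 : Fin m → ℕ), (∀ i, 1 ≤ b0 i) →
  ∀ (Ω : Type) [MeasurableSpace Ω] (P : Measure Ω) [IsProbabilityMeasure P]
    (c : ℕ → Ω → Ch G), IsUrn G α b0 P c →
  ∀ᵐ ω ∂P, Summable fun n : ℕ =>
    (if tot b0 ≤ n then g (X (st G b0 (fun k => c k ω) n)) else 0) / (tot b0 + (n + 1) * NE G)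

/-- convergence to an equilibrium -/
def Conv : Prop :=
  ∀ (m : ℕ) (G : SimpleGraph (Fin m)) [DecidableRel G.Adj], 0 < m → 0 < NE G →
  ∀ α : ℝ, 2 ≤ α → {x | x ∈ Rg G ∧ ∀ i, fF G α x i = NE G * x i}.Finite →
  ∀ b0 : Fin m → ℕ, (∀ i, 1 ≤ b0 i) →
  ∀ (Ω : Type) [MeasurableSpace Ω] (P : Measure Ω) [IsProbabilityMeasure P]
    (c : ℕ → Ω → Ch G), IsUrn G α b0 P c →
  ∀ᵐ ω ∂P, ∃ x, (x ∈ Rg G ∧ ∀ i, fF G α x i = NE G * x i) ∧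
    Tendsto (fun n : ℕ => X (st G b0 (fun k => c k ω) n)) atTop (𝓝 x)

/-- assembly of the convergence part -/
def TaskConv : Prop := TaskA1 → TaskA3 → TaskL1 → TaskL2 → TaskLip → TaskL3 → TaskL4 → TaskM0 →
  TaskM3 → Conv

/-! ## E. Equilibria for large `α` -/

/-- equilibria -/
def IsEqm (α : ℝ) (x : Fin m → ℝ) : Prop := x ∈ Rg G ∧ ∀ i, fF G α x i = NE G * x i

/-- `p (1 - p)` -/
def ww (α a b : ℝ) : ℝ := pp α a b * (1 - pp α a b)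

/-- nondegenerate equilibrium (within its face), in relative coordinates -/
def NonDeg (α : ℝ) (x : Fin m → ℝ) : Prop :=
  ∀ y : Fin m → ℝ, (∀ i, x i = 0 → y i = 0) →
  (∀ i, x i ≠ 0 → (NE G : ℝ) * (x i * y i) =
    α * ∑ j, if G.Adj i j ∧ x j ≠ 0 then ww α (x i) (x j) * (y i - y j) else 0) →
  ∀ i, y i = 0

/-- coordinates of equilibria are zero or bounded below -/
def E1Stmt (α : ℝ) : Prop :=
  ∀ x : Fin m → ℝ, IsEqm G α x → ∀ i, x i = 0 ∨ 1 / (8 * (NE G : ℝ)) ≤ x i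

def TaskE1 : Prop :=
  ∀ (m : ℕ) (G : SimpleGraph (Fin m)) [DecidableRel G.Adj], 0 < NE G →
  ∃ α1 : ℝ, ∀ α ≥ α1, E1Stmt G α

/-- key contradiction: there is no cluster that splits in two parts at an intermediate gap -/
def TaskE2a : Prop :=
  ∀ (m : ℕ) (G : SimpleGraph (Fin m)) [DecidableRel G.Adj], 0 < NE G →
  ∃ K κ α1 : ℝ, 0 < K ∧ 0 < κ ∧ 0 < α1 ∧ ∀ α ≥ α1, E1Stmt G α →
  ∀ x : Fin m → ℝ, IsEqm G α x →
  ∀ D D' : Finset (Fin m), D.Nonempty → D'.Nonempty → (∀ i ∈ D ∪ D', x i ≠ 0) →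
  (∀ i ∈ D, ∀ j ∈ D', K ≤ α * Real.log (x i) - α * Real.log (x j)) →
  (∀ i ∈ D ∪ D', ∀ k, x k ≠ 0 → k ∉ D ∪ D' →
    κ * α ≤ |α * Real.log (x i) - α * Real.log (x k)|) →
  (∀ i ∈ D ∪ D', ∀ j ∈ D ∪ D', |α * Real.log (x i) - α * Real.log (x j)| ≤ m * (κ * α)) →
  False

/-- combinatorial lemma on gaps -/
def TaskE2b : Prop :=
  ∀ (m : ℕ) (A : Finset (Fin m)) (ν : Fin m → ℝ) (K M : ℝ), 0 < K →
  ∀ i ∈ A, ∀ j ∈ A, (m : ℝ) * K < ν j - ν i → ν j - ν i < M →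
  ∃ D D' : Finset (Fin m), D ⊆ A ∧ D' ⊆ A ∧ D.Nonempty ∧ D'.Nonempty ∧
  (∀ a ∈ D, ∀ b ∈ D', K ≤ ν a - ν b) ∧
  (∀ a ∈ D ∪ D', ∀ k ∈ A, k ∉ D ∪ D' → M ≤ |ν a - ν k|) ∧
  (∀ a ∈ D ∪ D', ∀ b ∈ D ∪ D', |ν a - ν b| ≤ m * M)

/-- gap dichotomy -/
def E2Stmt (α K κ : ℝ) : Prop :=
  ∀ x : Fin m → ℝ, IsEqm G α x → ∀ i j, x i ≠ 0 → x j ≠ 0 →
  |α * Real.log (x i) - α * Real.log (x j)| ≤ K ∨
  κ * α ≤ |α * Real.log (x i) - α * Real.log (x j)|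

def TaskE2 : Prop := TaskE2a → TaskE2b →
  ∀ (m : ℕ) (G : SimpleGraph (Fin m)) [DecidableRel G.Adj], 0 < NE G →
  ∃ K κ α1 : ℝ, 0 < K ∧ 0 < κ ∧ 0 < α1 ∧ ∀ α ≥ α1, E1Stmt G α → E2Stmt G α K κ

/-- nondegeneracy of all equilibria for large `α` -/
def TaskE3 : Prop :=
  ∀ (m : ℕ) (G : SimpleGraph (Fin m)) [DecidableRel G.Adj], 0 < NE G →
  ∀ K κ : ℝ, 0 < K → 0 < κ → ∃ α1 : ℝ, ∀ α ≥ α1, E1Stmt G α → E2Stmt G α K κ →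
  ∀ x : Fin m → ℝ, IsEqm G α x → NonDeg G α x

/-- finiteness of the set of equilibria -/
def TaskE4 : Prop :=
  ∀ (m : ℕ) (G : SimpleGraph (Fin m)) [DecidableRel G.Adj], 0 < NE G →
  ∀ α : ℝ, 2 ≤ α → E1Stmt G α → (∀ x : Fin m → ℝ, IsEqm G α x → NonDeg G α x) →
  {x | x ∈ Rg G ∧ ∀ i, fF G α x i = NE G * x i}.Finite

/-! ## R. Interior equilibria are repelling -/

/-- an eigenvector for a positive eigenvalue -/
def TaskR1 : Prop :=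
  ∀ (m : ℕ) (G : SimpleGraph (Fin m)) [DecidableRel G.Adj], 0 < m → 0 < NE G →
  ∀ (α : ℝ) (v : Fin m → ℝ), 2 < α → IsEqm G α v → (∀ i, 0 < v i) →
  ∃ (μ : ℝ) (u : Fin m → ℝ), 0 < μ ∧ u ≠ 0 ∧ ∀ i, -(v i * u i) + (α / NE G) *
    (∑ j, if G.Adj i j then ww α (v i) (v j) * (u i - u j) else 0) = μ * (v i * u i)

/-- the derivative of the drift at an interior point `v` applied to `z` -/
def JJ (α : ℝ) (v z : Fin m → ℝ) (i : Fin m) : ℝ :=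
  α * (∑ j, if G.Adj i j then ww α (v i) (v j) * (z i / v i - z j / v j) else 0) - NE G * z i

/-- the quadratic form at the equilibrium -/
def TaskR2 : Prop := TaskR1 →
  ∀ (m : ℕ) (G : SimpleGraph (Fin m)) [DecidableRel G.Adj], 0 < m → 0 < NE G →
  ∀ (α : ℝ) (v : Fin m → ℝ), 2 < α → IsEqm G α v → (∀ i, 0 < v i) → NonDeg G α v →
  ∃ (Q : Fin m → Fin m → ℝ) (c σ : ℝ), 0 < c ∧ 0 < σ ∧ (∀ i j, Q i j = Q j i) ∧
  (∀ z : Fin m → ℝ, c * ∑ i, (z i) ^ 2 ≤ ∑ i, ∑ j, Q i j * z i * JJ G α v z j) ∧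
  σ ≤ ∑ e : Ed G, ww α (v e.1.1) (v e.1.2) *
    (Q e.1.1 e.1.1 - 2 * Q e.1.1 e.1.2 + Q e.1.2 e.1.2)

/-- repelling: the two-point form of the drift -/
def Rep (α : ℝ) (v : Fin m → ℝ) (Q : Fin m → Fin m → ℝ) (ρ c σ : ℝ) : Prop :=
  (∀ i j, Q i j = Q j i) ∧
  (∀ x x' : Fin m → ℝ, (∀ i, |x i - v i| < ρ) → (∀ i, |x' i - v i| < ρ) →
    c * ∑ i, (x i - x' i) ^ 2 ≤
      ∑ i, ∑ j, Q i j * (x i - x' i) * (GG G α x j - GG G α x' j)) ∧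
  (∀ x : Fin m → ℝ, (∀ i, |x i - v i| < ρ) → σ ≤ ∑ e : Ed G, ww α (x e.1.1) (x e.1.2) *
    (Q e.1.1 e.1.1 - 2 * Q e.1.1 e.1.2 + Q e.1.2 e.1.2)) ∧
  (∀ x x' : Fin m → ℝ, (∀ i, |x i - v i| < ρ) → (∀ i, |x' i - v i| < ρ) →
    ∑ i, (GG G α x i - GG G α x' i) ^ 2 ≤ (1 / c) * ∑ i, (x i - x' i) ^ 2)

def TaskR3 : Prop :=
  ∀ (m : ℕ) (G : SimpleGraph (Fin m)) [DecidableRel G.Adj],
  ∀ (α : ℝ) (v : Fin m → ℝ), 2 < α → (∀ i, 0 < v i) →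
  ∀ (Q : Fin m → Fin m → ℝ) (c σ : ℝ), 0 < c → 0 < σ → (∀ i j, Q i j = Q j i) →
  (∀ z : Fin m → ℝ, c * ∑ i, (z i) ^ 2 ≤ ∑ i, ∑ j, Q i j * z i * JJ G α v z j) →
  σ ≤ ∑ e : Ed G, ww α (v e.1.1) (v e.1.2) *
    (Q e.1.1 e.1.1 - 2 * Q e.1.1 e.1.2 + Q e.1.2 e.1.2) →
  ∃ ρ c' σ' : ℝ, 0 < ρ ∧ 0 < c' ∧ 0 < σ' ∧ Rep G α v Q ρ c' σ'

/-! ## N. Two copies of the process -/

/-- the quadratic form -/
def Qf (Q : Fin m → Fin m → ℝ) (z : Fin m → ℝ) : ℝ := ∑ i, ∑ j, Q i j * z i * z j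

/-- elementary inequality -/
def TaskN0 : Prop :=
  ∀ (ι : Type) [Fintype ι] (p d : ι → ℝ), (∀ i, 0 ≤ p i) → ∑ i, p i = 1 → (∀ i, |d i| ≤ 1) →
  ∑ i, p i * Real.exp (-(d i)) ≤ 1 - ∑ i, p i * d i + ∑ i, p i * (d i) ^ 2

/-- the exact mean of the quadratic form after one step of two independent copies -/
def TaskN1a : Prop := TaskA1 → TaskA2 → TaskA3 →
  ∀ (m : ℕ) (G : SimpleGraph (Fin m)) [DecidableRel G.Adj], 0 < m →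
  ∀ (α : ℝ) (Q : Fin m → Fin m → ℝ), (∀ i j, Q i j = Q j i) →
  ∀ b b' : Fin m → ℕ, (∀ i, 1 ≤ b i) → (∀ i, 1 ≤ b' i) → tot b = tot b' →
  ∑ s, ∑ s', w G α b s * w G α b' s' *
    (Qf Q (fun i => X (stp G b s) i - X (stp G b' s') i) - Qf Q (fun i => X b i - X b' i)) =
  2 / (tot b + NE G) *
    (∑ i, ∑ j, Q i j * (X b i - X b' i) * (GG G α (X b) j - GG G α (X b') j)) +
  1 / (tot b + NE G) ^ 2 * (Qf Q (fun i => GG G α (X b) i - GG G α (X b') i) +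
    ∑ e : Ed G, ww α (X b e.1.1) (X b e.1.2) *
      (Q e.1.1 e.1.1 - 2 * Q e.1.1 e.1.2 + Q e.1.2 e.1.2) +
    ∑ e : Ed G, ww α (X b' e.1.1) (X b' e.1.2) *
      (Q e.1.1 e.1.1 - 2 * Q e.1.1 e.1.2 + Q e.1.2 e.1.2))

/-- size of the one step increment of the quadratic form -/
def TaskN1b : Prop := TaskA3 →
  ∀ (m : ℕ) (G : SimpleGraph (Fin m)) [DecidableRel G.Adj], 0 < m →
  ∀ (Q : Fin m → Fin m → ℝ), ∃ C : ℝ, 0 < C ∧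
  ∀ b b' : Fin m → ℕ, (∀ i, 1 ≤ b i) → (∀ i, 1 ≤ b' i) → tot b = tot b' →
  ∀ s s' : Ch G,
  |Qf Q (fun i => X (stp G b s) i - X (stp G b' s') i) - Qf Q (fun i => X b i - X b' i)| ≤
    C * (Real.sqrt (∑ i, (X b i - X b' i) ^ 2) / tot b + 1 / (tot b) ^ 2)

/-- the one step inequality for two copies -/
def N1Stmt (α : ℝ) (v : Fin m → ℝ) (Q : Fin m → Fin m → ℝ) (ρ θ c S0 : ℝ) : Prop :=
  ∀ T ≥ S0, ∀ b b' : Fin m → ℕ, (∀ i, 1 ≤ b i) → (∀ i, 1 ≤ b' i) → tot b = tot b' →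
  T ≤ tot b → (∀ i, |X b i - v i| < ρ) → (∀ i, |X b' i - v i| < ρ) →
  ∑ s, ∑ s', w G α b s * w G α b' s' *
    Real.exp (-(θ * T * Qf Q (fun i => X (stp G b s) i - X (stp G b' s') i))) ≤
  Real.exp (-(θ * T * Qf Q (fun i => X b i - X b' i))) *
    (1 - c * T * (∑ i, (X b i - X b' i) ^ 2) / tot b - c * T / (tot b) ^ 2)

def TaskN1 : Prop := TaskA1 → TaskN0 → TaskN1a → TaskN1b → TaskA2 → TaskA3 →
  ∀ (m : ℕ) (G : SimpleGraph (Fin m)) [DecidableRel G.Adj], 0 < m → 0 < NE G →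
  ∀ (α : ℝ) (v : Fin m → ℝ) (Q : Fin m → Fin m → ℝ) (ρ c σ : ℝ), 0 < ρ → 0 < c → 0 < σ →
  Rep G α v Q ρ c σ → ∃ θ c' S0 : ℝ, 0 < θ ∧ 0 < c' ∧ 0 < S0 ∧ N1Stmt G α v Q ρ θ c' S0

/-- killed one step operator of the process -/
def KK (α : ℝ) (U : Set (Fin m → ℕ)) [DecidablePred (· ∈ U)] (F : (Fin m → ℕ) → ℝ)
    (b : Fin m → ℕ) : ℝ := if b ∈ U then PP G α F b else 0

/-- probability of staying in `U` at the times `0, …, k - 1` -/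
def qq (α : ℝ) (U : Set (Fin m → ℕ)) [DecidablePred (· ∈ U)] (k : ℕ) (b : Fin m → ℕ) : ℝ :=
  ((KK G α U)^[k] (fun _ => 1)) b

/-- killed one step operator of two independent copies -/
def K2 (α : ℝ) (U : Set (Fin m → ℕ)) [DecidablePred (· ∈ U)]
    (F : (Fin m → ℕ) → (Fin m → ℕ) → ℝ) (b b' : Fin m → ℕ) : ℝ :=
  if b ∈ U ∧ b' ∈ U then
    ∑ s, ∑ s', w G α b s * w G α b' s' * F (stp G b s) (stp G b' s') else 0

/-- sequences produced by two copies started at the same point -/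
def TaskN2a : Prop := TaskA1 → TaskA3 →
  ∀ (m : ℕ) (G : SimpleGraph (Fin m)) [DecidableRel G.Adj], 0 < m → 0 < NE G →
  ∀ (α : ℝ) (v : Fin m → ℝ) (Q : Fin m → Fin m → ℝ) (ρ θ c S0 : ℝ), 0 < ρ → 0 < θ → 0 < c →
  0 < S0 → N1Stmt G α v Q ρ θ c S0 →
  ∀ (U : Set (Fin m → ℕ)) [DecidablePred (· ∈ U)], (∀ b ∈ U, ∀ i, |X b i - v i| < ρ) →
  ∃ K : ℝ, 0 < K ∧ ∀ b : Fin m → ℕ, (∀ i, 1 ≤ b i) → S0 ≤ tot b →
  ∃ (a d e : ℕ → ℝ) (r : ℝ), 0 < r ∧ a 0 ≤ 1 ∧ (∀ k, 0 ≤ a k) ∧ (∀ k, 0 ≤ d k) ∧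
  (∀ k, r * d k ≤ e k) ∧ (∀ k, (qq G α U (k + 1) b) ^ 2 ≤ a k + K * tot b * d k) ∧
  (∀ k : ℕ, a (k + 1) ≤ a k - c * tot b / (tot b + k * NE G) * e k -
    c * tot b / (tot b + k * NE G) ^ 2 * a k)

/-- real sequences -/
def TaskN2b : Prop :=
  ∀ (c N K : ℝ), 0 < c → 1 ≤ N → 0 < K → ∃ ε T0 : ℝ, 0 < ε ∧ 0 < T0 ∧
  ∀ T ≥ T0, ∀ (a d e q : ℕ → ℝ) (r : ℝ), 0 < r → a 0 ≤ 1 → (∀ k, 0 ≤ a k) → (∀ k, 0 ≤ d k) →
  (∀ k, r * d k ≤ e k) → (∀ k, (q k) ^ 2 ≤ a k + K * T * d k) →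
  (∀ k : ℕ, a (k + 1) ≤ a k - c * T / (T + k * N) * e k - c * T / (T + k * N) ^ 2 * a k) →
  ∃ k, q k ≤ 1 - ε

/-- iteration -/
def TaskN3 : Prop := TaskA1 → TaskA3 →
  ∀ (m : ℕ) (G : SimpleGraph (Fin m)) [DecidableRel G.Adj], 0 < m →
  ∀ (α : ℝ) (U : Set (Fin m → ℕ)) [DecidablePred (· ∈ U)] (ε S1 : ℝ), 0 < ε →
  (∀ b : Fin m → ℕ, (∀ i, 1 ≤ b i) → S1 ≤ tot b → ∃ k, qq G α U k b ≤ 1 - ε) →
  ∀ b : Fin m → ℕ, (∀ i, 1 ≤ b i) → S1 ≤ tot b → Tendsto (fun k => qq G α U k b) atTop (𝓝 0)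

/-- from the killed operator to the process -/
def TaskM1 : Prop := TaskA1 → TaskA3 → TaskM0 →
  ∀ (m : ℕ) (G : SimpleGraph (Fin m)) [DecidableRel G.Adj], 0 < m → 0 < NE G →
  ∀ (α : ℝ) (U : Set (Fin m → ℕ)) [DecidablePred (· ∈ U)] (S1 : ℝ),
  (∀ b : Fin m → ℕ, (∀ i, 1 ≤ b i) → S1 ≤ tot b →
    Tendsto (fun k => qq G α U k b) atTop (𝓝 0)) →
  ∀ (b0 : Fin m → ℕ), (∀ i, 1 ≤ b0 i) →
  ∀ (Ω : Type) [MeasurableSpace Ω] (P : Measure Ω) [IsProbabilityMeasure P]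
    (c : ℕ → Ω → Ch G), IsUrn G α b0 P c →
  ∀ n : ℕ, P {ω | ∀ k ≥ n, st G b0 (fun k => c k ω) k ∈ U} = 0

end

end Pool.Agent.H110R3.Urn
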