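import Pool.Agent.H110R3.Urn.Assembly
import Pool.Agent.H110R3.Urn.Exist
import Pool.Agent.H431R3.Urn.TaskA1
import Pool.Agent.H253MB.Urn.TaskA2
import Pool.Agent.H471R3.Urn.TaskA3
import Pool.Agent.H337R3.Urn.L2
import Pool.Agent.H110R3.Urn.L1own
import Pool.Agent.H22R3.Urn.Lip
import Pool.Agent.H224R3.Urn.L3
import Pool.Agent.H630R3.Urn.L4
import Pool.Agent.H68R3.Urn.TaskM0
import Pool.Agent.H110R3.Urn.TaskM3
import Pool.Agent.H419R3.Urn.Conv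
import Pool.Agent.H201R3.Urn.E1
import Pool.Agent.H482.Urn.E2a
import Pool.Agent.H927R2.UrnE2b
import Pool.Agent.H182R3.UrnE2
import Pool.Agent.H217R3.Urn.TaskE3
import Pool.Agent.H110R3.Urn.E4
import Pool.Agent.H468R3.Urn.R1
import Pool.Agent.H157R3.Urn.TaskR2
import Pool.Agent.H872R3.Urn.TaskR3
import Pool.Agent.H992R3.Urn.N0
import Pool.Agent.H464R3.Urn.TaskN1a
import Pool.Agent.H780R3.Urn.N1b
import Pool.Agent.H105R3.UrnN1
import Pool.Agent.H878.Urn.N2a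
import Pool.Agent.H992R3.Urn.N2b
import Pool.Agent.H992R3.Urn.N3
import Pool.Agent.H265R3.UrnM1

namespace Pool.Agent.H110R3.Urn

theorem main : Main :=
  main_of Pool.Agent.H431R3.Urn.taskA1 Pool.Agent.H253MB.Urn.taskA2 Pool.Agent.H110R3.Urn.A3.t
    Pool.Agent.H337R3.UrnL2.t Pool.Agent.H110R3.Urn.L1own.t Pool.Agent.H22R3.Urn.taskLip
    Pool.Agent.H224R3.Urn.taskL3 Pool.Agent.H630R3.Urn.taskL4
    Pool.Agent.H68R3.Urn.taskM0 Pool.Agent.H110R3.Urn.taskM3 Pool.Agent.H419R3.Urn.conv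
    Pool.Agent.H201R3.Urn.taskE1 Pool.Agent.H482.Urn.taskE2a Pool.Agent.H927R2.UrnE2b.taskE2b
    Pool.Agent.H182R3.UrnE2.t Pool.Agent.H217R3.UrnE3.taskE3 Pool.Agent.H110R3.Urn.E4.e4_ok
    Pool.Agent.H468R3.Urn.R1.taskR1 Pool.Agent.H157R3.Urn.taskR2 Pool.Agent.H872R3.Urn.taskR3
    Pool.Agent.H992R3.Urn.taskN0 Pool.Agent.H464R3.Urn.taskN1a Pool.Agent.H780R3.Urn.taskN1b
    Pool.Agent.H105R3.UrnN1.taskN1 Pool.Agent.H878.UrnN2a.taskN2a Pool.Agent.H992R3.Urn.taskN2b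
    Pool.Agent.H992R3.Urn.taskN3 Pool.Agent.H265R3.UrnM1.taskM1

end Pool.Agent.H110R3.Urn
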